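import Mathlib

set_option autoImplicit false
set_option linter.unusedSectionVars false

open Classical Finset

namespace Pool.Agent.Results.MP_95a65f_co.TotalDomDist

/-- Total dominating sets: every vertex has a neighbour in the set. -/
def IsTotalDominating {V : Type} (G : SimpleGraph V) (S : Finset V) : Prop :=
  ∀ v, ∃ u ∈ S, G.Adj v u

/-- The total domination number. -/
noncomputable def totalDomNum {V : Type} (G : SimpleGraph V) : ℕ :=
  sInf {k : ℕ | ∃ S : Finset V, IsTotalDominating G S ∧ S.card = k}

/-- The sum of the distances over all pairs `i < j`. -/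
noncomputable def distSum {V : Type} (G : SimpleGraph V) {r : ℕ} (x : Fin r → V) : ℕ :=
  ∑ p ∈ (Finset.univ : Finset (Fin r × Fin r)).filter (fun p => p.1 < p.2),
    G.dist (x p.1) (x p.2)

/-- The constant `c` is admissible for `r` when the inequality holds for all connected graphs with
at least two vertices and all choices of `r` vertices. -/
def Admissible (r : ℕ) (c : ℝ) : Prop :=
  ∀ (V : Type) [Fintype V] (G : SimpleGraph V), G.Connected → 2 ≤ Fintype.card V →
    ∀ x : Fin r → V, c * (distSum G x : ℝ) ≤ (totalDomNum G : ℝ)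

section Lower

variable {V : Type}

lemma ordered_sum {r : ℕ} (f : Fin r → Fin r → ℕ) (hs : ∀ i j, f i j = f j i)
    (h0 : ∀ i, f i i = 0) :
    ∑ i, ∑ j, f i j =
      2 * ∑ p ∈ (Finset.univ : Finset (Fin r × Fin r)).filter (fun p => p.1 < p.2), f p.1 p.2 := by
  have h1 : ∑ i, ∑ j, f i j = ∑ p : Fin r × Fin r, f p.1 p.2 := by
    rw [Fintype.sum_prod_type]
  rw [h1, ← Finset.sum_filter_add_sum_filter_not Finset.univ (fun p : Fin r × Fin r => p.1 < p.2)]
  have h2 : ∑ p ∈ (Finset.univ : Finset (Fin r × Fin r)).filter (fun p => ¬ p.1 < p.2), f p.1 p.2 =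
      ∑ p ∈ (Finset.univ : Finset (Fin r × Fin r)).filter (fun p => p.2 < p.1), f p.1 p.2 := by
    symm
    apply Finset.sum_subset
    · intro p hp
      simp only [Finset.mem_filter, Finset.mem_univ, true_and] at hp ⊢
      exact not_lt.mpr hp.le
    · intro p hp hp'
      simp only [Finset.mem_filter, Finset.mem_univ, true_and] at hp hp'
      have : p.1 = p.2 := le_antisymm (not_lt.mp hp') (not_lt.mp hp)
      rw [this, h0]
  have h3 : ∑ p ∈ (Finset.univ : Finset (Fin r × Fin r)).filter (fun p => p.2 < p.1), f p.1 p.2 =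
      ∑ p ∈ (Finset.univ : Finset (Fin r × Fin r)).filter (fun p => p.1 < p.2), f p.1 p.2 := by
    apply Finset.sum_equiv (Equiv.prodComm _ _)
    · intro p
      simp
    · intro p _
      simp [hs p.1 p.2]
  rw [h2, h3]
  ring

lemma distSum_two {r : ℕ} (G : SimpleGraph V) (x : Fin r → V) :
    ∑ i, ∑ j, G.dist (x i) (x j) = 2 * distSum G x :=
  ordered_sum (fun i j => G.dist (x i) (x j)) (fun _ _ => SimpleGraph.dist_comm)
    (fun _ => SimpleGraph.dist_self)

lemma pair_count {r : ℕ} (A : Fin r → Prop) :
    ∑ i, ∑ j, (if A i ∧ ¬ A j then 1 else 0) =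
      (Finset.univ.filter A).card * (r - (Finset.univ.filter A).card) := by
  have h1 : ∀ i j : Fin r, (if A i ∧ ¬ A j then 1 else 0) =
      (if A i then 1 else 0) * (if ¬ A j then 1 else 0) := by
    intro i j
    by_cases h1 : A i <;> by_cases h2 : A j <;> simp [h1, h2]
  simp_rw [h1]
  rw [← Finset.sum_mul_sum, ← Finset.card_filter, ← Finset.card_filter]
  congr 1
  have := Finset.card_filter_add_card_filter_not (s := (Finset.univ : Finset (Fin r))) A
  rw [Finset.card_univ, Fintype.card_fin] at this
  omega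

lemma mul_sub_le {a r : ℕ} (h : a ≤ r) : a * (r - a) ≤ r ^ 2 / 4 := by
  rw [Nat.le_div_iff_mul_le (by norm_num)]
  obtain ⟨b, rfl⟩ := Nat.exists_eq_add_of_le h
  rw [Nat.add_sub_cancel_left]
  zify
  nlinarith [sq_nonneg ((a : ℤ) - b)]

/-- A set built by adding vertices one at a time, with the total length of the joining edges. -/
inductive Build (G : SimpleGraph V) : Finset V → ℕ → Prop
  | single (v : V) : Build G {v} 0
  | step {P : Finset V} {L : ℕ} {u v : V} : Build G P L → u ∉ P → v ∈ P →
      Build G (insert u P) (L + G.dist u v)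

lemma build_bound {G : SimpleGraph V} (hG : G.Connected) {r : ℕ} {P : Finset V} {L : ℕ}
    (h : Build G P L) : ∀ c : Fin r → V, (∀ i, c i ∈ P) →
      ∑ i, ∑ j, G.dist (c i) (c j) ≤ 2 * (r ^ 2 / 4) * L := by
  induction h with
  | single v =>
    intro c hc
    have : ∀ i, c i = v := fun i => Finset.mem_singleton.mp (hc i)
    simp [this]
  | @step P L u v _ hu hv ih =>
    intro c hc
    let c' : Fin r → V := fun i => if c i = u then v else c i
    have hc' : ∀ i, c' i ∈ P := by
      intro i
      simp only [c']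
      split_ifs with h
      · exact hv
      · exact (Finset.mem_insert.mp (hc i)).resolve_left h
    have hpt : ∀ i j, G.dist (c i) (c j) ≤ G.dist (c' i) (c' j) +
        G.dist u v * ((if c i = u ∧ ¬ c j = u then 1 else 0) +
          (if c j = u ∧ ¬ c i = u then 1 else 0)) := by
      intro i j
      simp only [c']
      by_cases h1 : c i = u <;> by_cases h2 : c j = u
      · simp [h1, h2]
      · simp only [h1, h2, if_true, if_false, not_true, not_false_eq_true, and_true, and_false]
        have := hG.dist_triangle (u := u) (v := v) (w := c j)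
        omega
      · simp only [h1, h2, if_true, if_false, not_true, not_false_eq_true, and_true, and_false]
        have := hG.dist_triangle (u := c i) (v := v) (w := u)
        rw [SimpleGraph.dist_comm (u := v) (v := u)] at this
        omega
      · simp [h1, h2]
    have hsum : ∑ i, ∑ j, G.dist (c i) (c j) ≤ ∑ i, ∑ j, G.dist (c' i) (c' j) +
        G.dist u v * (∑ i, ∑ j, (if c i = u ∧ ¬ c j = u then 1 else 0) +
          ∑ i, ∑ j, (if c j = u ∧ ¬ c i = u then 1 else 0)) := by
      rw [← Finset.sum_add_distrib, Finset.mul_sum, ← Finset.sum_add_distrib]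
      apply Finset.sum_le_sum
      intro i _
      rw [← Finset.sum_add_distrib, Finset.mul_sum, ← Finset.sum_add_distrib]
      exact Finset.sum_le_sum (fun j _ => hpt i j)
    have h1 : ∑ i, ∑ j, (if c i = u ∧ ¬ c j = u then 1 else 0) ≤ r ^ 2 / 4 := by
      rw [pair_count (fun i => c i = u)]
      apply mul_sub_le
      exact (Finset.card_filter_le _ _).trans (by simp)
    have h2 : ∑ i, ∑ j, (if c j = u ∧ ¬ c i = u then 1 else 0) ≤ r ^ 2 / 4 := by
      rw [Finset.sum_comm]
      exact h1
    have h3 := ih c' hc'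
    calc ∑ i, ∑ j, G.dist (c i) (c j) ≤ _ := hsum
      _ ≤ 2 * (r ^ 2 / 4) * L + G.dist u v * (r ^ 2 / 4 + r ^ 2 / 4) :=
          add_le_add h3 (Nat.mul_le_mul_left _ (add_le_add h1 h2))
      _ = 2 * (r ^ 2 / 4) * (L + G.dist u v) := by ring

/-- If `P` is a nonempty proper part of a total dominating set `S` then some vertex of `S` outside
`P` is close to `P`. -/
lemma close_vertex {G : SimpleGraph V} (hG : G.Connected) {S P : Finset V}
    (hS : IsTotalDominating G S) (hPS : P ⊆ S) (hne : P.Nonempty) (hP : P ≠ S) :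
    (∃ u ∈ S, u ∉ P ∧ ∃ v ∈ P, G.Adj u v) ∨
      (∃ u ∈ S, u ∉ P ∧ (∃ v ∈ P, G.dist u v ≤ 3) ∧ ∃ w ∈ S, w ∉ P ∧ w ≠ u ∧ G.Adj w u) := by
  by_cases h1 : ∃ u ∈ S, u ∉ P ∧ ∃ v ∈ P, G.Adj u v
  · exact Or.inl h1
  · right
    push Not at h1
    obtain ⟨p, hp⟩ := hne
    obtain ⟨t, htS, htP⟩ : ∃ t ∈ S, t ∉ P := by
      by_contra h
      push Not at h
      exact hP (Finset.Subset.antisymm hPS h)
    -- closed neighbourhood of `P`
    let A : Set V := {x | x ∈ P ∨ ∃ v ∈ P, G.Adj x v}
    have hpA : p ∈ A := Or.inl hp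
    have htA : t ∉ A := by
      rintro (h | ⟨v, hv, h⟩)
      · exact htP h
      · exact h1 t htS htP v hv h
    obtain ⟨w⟩ := hG.preconnected p t
    obtain ⟨d, -, hdA, hdA'⟩ := w.exists_boundary_dart A hpA htA
    obtain ⟨u, huS, hu⟩ := hS d.snd
    have huP : u ∉ P := fun h => hdA' (Or.inr ⟨u, h, hu⟩)
    refine ⟨u, huS, huP, ?_, ?_⟩
    · have hd1 : G.dist u d.snd ≤ 1 := (SimpleGraph.dist_eq_one_iff_adj.mpr hu.symm).le
      have hd2 : G.dist d.snd d.fst ≤ 1 := (SimpleGraph.dist_eq_one_iff_adj.mpr d.adj.symm).le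
      have hd3 : G.dist u d.fst ≤ 2 := by
        have := hG.dist_triangle (u := u) (v := d.snd) (w := d.fst)
        omega
      rcases hdA with h | ⟨v, hv, h⟩
      · exact ⟨d.fst, h, by omega⟩
      · refine ⟨v, hv, ?_⟩
        have h4 : G.dist d.fst v ≤ 1 := (SimpleGraph.dist_eq_one_iff_adj.mpr h).le
        have := hG.dist_triangle (u := u) (v := d.fst) (w := v)
        omega
    · obtain ⟨w, hwS, hw⟩ := hS u
      refine ⟨w, hwS, ?_, hw.ne.symm, hw.symm⟩
      intro hwP
      exact h1 u huS huP w hwP hw

lemma build_all {G : SimpleGraph V} (hG : G.Connected) {S : Finset V}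
    (hS : IsTotalDominating G S) : ∀ (n : ℕ) (P : Finset V) (L : ℕ), S.card - P.card ≤ n →
      P ⊆ S → P.Nonempty → Build G P L → L + 3 ≤ 2 * P.card →
      ∃ L', Build G S L' ∧ L' + 3 ≤ 2 * S.card := by
  intro n
  induction n using Nat.strong_induction_on with
  | _ n ih =>
    intro P L hn hPS hne hB hL
    by_cases hP : P = S
    · subst hP
      exact ⟨L, hB, hL⟩
    · have hlt : P.card < S.card := Finset.card_lt_card (hPS.ssubset_of_ne hP)
      rcases close_vertex hG hS hPS hne hP with ⟨u, huS, huP, v, hvP, huv⟩ |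
        ⟨u, huS, huP, ⟨v, hvP, huv⟩, w, hwS, hwP, hwu, hadj⟩
      · have hB' := Build.step hB huP hvP
        have hd : G.dist u v = 1 := SimpleGraph.dist_eq_one_iff_adj.mpr huv
        have hcard : (insert u P).card = P.card + 1 := Finset.card_insert_of_notMem huP
        refine ih (S.card - (insert u P).card) (by omega) (insert u P) _ le_rfl
          (Finset.insert_subset huS hPS) (Finset.insert_nonempty _ _) hB' ?_
        omega
      · have hB' := Build.step hB huP hvP
        have hwP' : w ∉ insert u P := by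
          rw [Finset.mem_insert]
          rintro (h | h)
          · exact hwu h
          · exact hwP h
        have hB'' := Build.step hB' hwP' (Finset.mem_insert_self u P)
        have hd : G.dist w u = 1 := SimpleGraph.dist_eq_one_iff_adj.mpr hadj
        have hcard : (insert u P).card = P.card + 1 := Finset.card_insert_of_notMem huP
        have hcard' : (insert w (insert u P)).card = (insert u P).card + 1 :=
          Finset.card_insert_of_notMem hwP'
        refine ih (S.card - (insert w (insert u P)).card) (by omega) (insert w (insert u P)) _ le_rfl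
          (Finset.insert_subset hwS (Finset.insert_subset huS hPS)) (Finset.insert_nonempty _ _)
          hB'' ?_
        omega

lemma build_td {G : SimpleGraph V} (hG : G.Connected) {S : Finset V}
    (hS : IsTotalDominating G S) : ∃ L, Build G S L ∧ L + 3 ≤ 2 * S.card := by
  obtain ⟨v⟩ := hG.nonempty
  obtain ⟨u, huS, -⟩ := hS v
  obtain ⟨w, hwS, huw⟩ := hS u
  have hB : Build G (insert w {u}) (0 + G.dist w u) :=
    Build.step (Build.single u) (by simpa using huw.ne.symm) (Finset.mem_singleton_self u)
  have hd : G.dist w u = 1 := SimpleGraph.dist_eq_one_iff_adj.mpr huw.symm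
  have hcard : (insert w {u} : Finset V).card = 2 := by
    rw [Finset.card_insert_of_notMem (by simpa using huw.ne.symm), Finset.card_singleton]
  refine build_all hG hS _ (insert w {u}) _ le_rfl ?_ (Finset.insert_nonempty _ _) hB ?_
  · intro z hz
    rw [Finset.mem_insert, Finset.mem_singleton] at hz
    rcases hz with rfl | rfl
    · exact hwS
    · exact huS
  · omega

/-- The main inequality. -/
lemma main_bound {G : SimpleGraph V} (hG : G.Connected) {S : Finset V}
    (hS : IsTotalDominating G S) {r : ℕ} (hr : 3 ≤ r) (x : Fin r → V) :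
    2 * distSum G x ≤ S.card * (r ^ 2 / 4 + r * (r - 1)) := by
  obtain ⟨L, hB, hL⟩ := build_td hG hS
  choose c hcS hc using fun i => hS (x i)
  have h1 := build_bound hG hB c hcS
  have hpt : ∀ i j, G.dist (x i) (x j) ≤ G.dist (c i) (c j) + (if i = j then 0 else 2) := by
    intro i j
    by_cases hij : i = j
    · subst hij; simp
    · simp only [hij, if_false]
      have h2 := hG.dist_triangle (u := x i) (v := c i) (w := x j)
      have h3 := hG.dist_triangle (u := c i) (v := c j) (w := x j)
      have h4 : G.dist (x i) (c i) = 1 := SimpleGraph.dist_eq_one_iff_adj.mpr (hc i)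
      have h5 : G.dist (c j) (x j) = 1 := SimpleGraph.dist_eq_one_iff_adj.mpr (hc j).symm
      omega
  have h2 : ∑ i, ∑ j, G.dist (x i) (x j) ≤ ∑ i, ∑ j, G.dist (c i) (c j) + 2 * (r * (r - 1)) := by
    have h3 : ∑ i : Fin r, ∑ j : Fin r, (if i = j then 0 else 2) = 2 * (r * (r - 1)) := by
      have : ∀ i : Fin r, ∑ j : Fin r, (if i = j then 0 else 2) = 2 * (r - 1) := by
        intro i
        have h4 : ∀ j : Fin r, (if i = j then 0 else 2) = if ¬ (i = j) then 2 else 0 := by
          intro j; by_cases h : i = j <;> simp [h]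
        simp_rw [h4]
        rw [← Finset.sum_filter, Finset.sum_const, smul_eq_mul]
        have h5 : (Finset.univ.filter (fun j : Fin r => ¬ (i = j))).card = r - 1 := by
          have := Finset.card_filter_add_card_filter_not (s := (Finset.univ : Finset (Fin r)))
            (fun j => i = j)
          rw [Finset.card_univ, Fintype.card_fin, Finset.filter_eq] at this
          simp only [Finset.mem_univ, if_true, Finset.card_singleton] at this
          omega
        rw [h5]; ring
      simp_rw [this]
      rw [Finset.sum_const, Finset.card_univ, Fintype.card_fin, smul_eq_mul]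
      ring
    rw [← h3, ← Finset.sum_add_distrib]
    apply Finset.sum_le_sum
    intro i _
    rw [← Finset.sum_add_distrib]
    exact Finset.sum_le_sum (fun j _ => hpt i j)
  rw [distSum_two] at h2
  have h3 : 2 * distSum G x ≤ 2 * (r ^ 2 / 4) * L + 2 * (r * (r - 1)) := h2.trans (by omega)
  -- arithmetic
  have hM : 3 * (r ^ 2 / 4) ≤ r * (r - 1) := by
    obtain ⟨m, rfl⟩ : ∃ m, r = m + 3 := ⟨r - 3, by omega⟩
    have h5 : 4 * ((m + 3) ^ 2 / 4) ≤ (m + 3) ^ 2 := Nat.mul_div_le _ _
    have h6 : (m + 3) * (m + 3 - 1) = m ^ 2 + 5 * m + 6 := by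
      rw [show m + 3 - 1 = m + 2 by omega]; ring
    rw [h6]
    rcases Nat.eq_zero_or_pos m with hm | hm
    · subst hm; norm_num
    · nlinarith
  have hs : 2 ≤ S.card := by omega
  obtain ⟨t, ht⟩ : ∃ t, S.card = t + 2 := ⟨S.card - 2, by omega⟩
  have hL' : L ≤ 2 * t + 1 := by omega
  rw [ht]
  have h7 : 2 * (r ^ 2 / 4) * L ≤ 2 * (r ^ 2 / 4) * (2 * t + 1) := Nat.mul_le_mul_left _ hL'
  have h8 : t * (3 * (r ^ 2 / 4)) ≤ t * (r * (r - 1)) := Nat.mul_le_mul_left _ hM
  nlinarith

end Lower

/-! ### The double star -/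

section Upper

/-- The double star: two adjacent centres, and `r` leaves split evenly. -/
def dsAdj (r : ℕ) : Bool ⊕ Fin r → Bool ⊕ Fin r → Prop
  | Sum.inl a, Sum.inl b => a ≠ b
  | Sum.inl a, Sum.inr i => a = decide (i.val < r / 2)
  | Sum.inr i, Sum.inl a => a = decide (i.val < r / 2)
  | Sum.inr _, Sum.inr _ => False

def ds (r : ℕ) : SimpleGraph (Bool ⊕ Fin r) where
  Adj := dsAdj r
  symm := ⟨by
    intro u v h
    rcases u with a | i <;> rcases v with b | j <;> simp only [dsAdj] at h ⊢
    · exact h.symm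
    · exact h
    · exact h⟩
  loopless := ⟨by
    intro u h
    rcases u with a | i <;> simp [dsAdj] at h⟩

lemma ds_connected (r : ℕ) : (ds r).Connected := by
  have h0 : ∀ a : Bool, (ds r).Reachable (Sum.inl true) (Sum.inl a) := by
    intro a
    cases a
    · apply SimpleGraph.Adj.reachable
      change true ≠ false
      decide
    · exact SimpleGraph.Reachable.refl _
  have hub : ∀ v, (ds r).Reachable (Sum.inl true) v := by
    intro v
    rcases v with a | i
    · exact h0 a
    · refine (h0 (decide (i.val < r / 2))).trans ?_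
      apply SimpleGraph.Adj.reachable
      change decide (i.val < r / 2) = decide (i.val < r / 2)
      rfl
  exact SimpleGraph.Connected.mk (fun u v => (hub u).symm.trans (hub v))

lemma walk_pot {V : Type} {G : SimpleGraph V} (h : V → ℤ)
    (hh : ∀ u v, G.Adj u v → |h u - h v| ≤ 1) {u v : V} (w : G.Walk u v) :
    |h u - h v| ≤ w.length := by
  induction w with
  | nil => simp
  | @cons a b c hab w ih =>
    rw [SimpleGraph.Walk.length_cons]
    have h1 := hh a b hab
    have h2 : |h a - h c| ≤ |h a - h b| + |h b - h c| := abs_sub_le _ _ _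
    push_cast
    linarith

lemma ds_dist (r : ℕ) (i j : Fin r) (hij : i ≠ j) :
    2 + (if (i.val < r / 2) ∧ ¬ (j.val < r / 2) then 1 else 0) +
      (if (j.val < r / 2) ∧ ¬ (i.val < r / 2) then 1 else 0) ≤
      (ds r).dist (Sum.inr i) (Sum.inr j) := by
  have hconn := ds_connected r
  have hne : (Sum.inr i : Bool ⊕ Fin r) ≠ Sum.inr j := fun h => hij (Sum.inr.inj h)
  have h1 : 0 < (ds r).dist (Sum.inr i) (Sum.inr j) := hconn.pos_dist_of_ne hne
  have h2 : (ds r).dist (Sum.inr i) (Sum.inr j) ≠ 1 := by
    rw [Ne, SimpleGraph.dist_eq_one_iff_adj]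
    exact fun h => h
  -- potential
  let h : Bool ⊕ Fin r → ℤ := fun v => match v with
    | Sum.inl true => 1
    | Sum.inl false => 2
    | Sum.inr i => if i.val < r / 2 then 0 else 3
  have hh : ∀ u v, (ds r).Adj u v → |h u - h v| ≤ 1 := by
    intro u v huv
    change dsAdj r u v at huv
    rcases u with (_ | _) | i <;> rcases v with (_ | _) | j
    · simp [h]
    · simp [h]
    · simp only [dsAdj] at huv
      have : ¬ (j.val < r / 2) := by simpa using huv.symm
      simp [h, this]
    · simp [h]
    · simp [h]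
    · simp only [dsAdj] at huv
      have : (j.val < r / 2) := by simpa using huv.symm
      simp [h, this]
    · simp only [dsAdj] at huv
      have : ¬ (i.val < r / 2) := by simpa using huv.symm
      simp [h, this]
    · simp only [dsAdj] at huv
      have : (i.val < r / 2) := by simpa using huv.symm
      simp [h, this]
    · exact absurd huv (fun h => h)
  obtain ⟨w, hw⟩ := hconn.exists_walk_length_eq_dist (Sum.inr i) (Sum.inr j)
  have h3 := walk_pot h hh w
  rw [hw] at h3
  by_cases hi : i.val < r / 2 <;> by_cases hj : j.val < r / 2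
  · simp only [hi, hj, not_true, and_false, if_false]; omega
  · simp only [h, hi, hj, if_true, if_false] at h3
    simp only [hi, hj, not_false_eq_true, and_self, if_true, not_true, if_false]
    norm_num at h3
    omega
  · simp only [h, hi, hj, if_true, if_false] at h3
    simp only [hi, hj, not_false_eq_true, and_self, if_true, not_true, if_false]
    norm_num at h3
    omega
  · simp only [hi, hj, false_and, if_false]; omega

lemma ds_distSum (r : ℕ) :
    r ^ 2 / 4 + r * (r - 1) ≤ distSum (ds r) (fun i : Fin r => (Sum.inr i : Bool ⊕ Fin r)) := by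
  have h1 := distSum_two (ds r) (fun i : Fin r => (Sum.inr i : Bool ⊕ Fin r))
  have hpt : ∀ i j : Fin r, (if i = j then 0 else 2) +
      ((if (i.val < r / 2) ∧ ¬ (j.val < r / 2) then 1 else 0) +
        (if (j.val < r / 2) ∧ ¬ (i.val < r / 2) then 1 else 0)) ≤
      (ds r).dist (Sum.inr i) (Sum.inr j) := by
    intro i j
    by_cases hij : i = j
    · subst hij; simp
    · have := ds_dist r i j hij
      simp only [hij, if_false]
      omega
  have h2 : ∑ i : Fin r, ∑ j : Fin r, (if i = j then 0 else 2) +
      (∑ i : Fin r, ∑ j : Fin r, (if (i.val < r / 2) ∧ ¬ (j.val < r / 2) then 1 else 0) +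
        ∑ i : Fin r, ∑ j : Fin r, (if (j.val < r / 2) ∧ ¬ (i.val < r / 2) then 1 else 0)) ≤
      ∑ i : Fin r, ∑ j : Fin r, (ds r).dist (Sum.inr i) (Sum.inr j) := by
    rw [← Finset.sum_add_distrib, ← Finset.sum_add_distrib]
    apply Finset.sum_le_sum
    intro i _
    rw [← Finset.sum_add_distrib, ← Finset.sum_add_distrib]
    exact Finset.sum_le_sum (fun j _ => hpt i j)
  have h3 : ∑ i : Fin r, ∑ j : Fin r, (if i = j then 0 else 2) = 2 * (r * (r - 1)) := by
    have : ∀ i : Fin r, ∑ j : Fin r, (if i = j then 0 else 2) = 2 * (r - 1) := by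
      intro i
      have h4 : ∀ j : Fin r, (if i = j then 0 else 2) = if ¬ (i = j) then 2 else 0 := by
        intro j; by_cases h : i = j <;> simp [h]
      simp_rw [h4]
      rw [← Finset.sum_filter, Finset.sum_const, smul_eq_mul]
      have h5 : (Finset.univ.filter (fun j : Fin r => ¬ (i = j))).card = r - 1 := by
        have := Finset.card_filter_add_card_filter_not (s := (Finset.univ : Finset (Fin r)))
          (fun j => i = j)
        rw [Finset.card_univ, Fintype.card_fin, Finset.filter_eq] at this
        simp only [Finset.mem_univ, if_true, Finset.card_singleton] at this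
        omega
      rw [h5]; ring
    simp_rw [this]
    rw [Finset.sum_const, Finset.card_univ, Fintype.card_fin, smul_eq_mul]
    ring
  have h4 : ∑ i : Fin r, ∑ j : Fin r, (if (i.val < r / 2) ∧ ¬ (j.val < r / 2) then 1 else 0) =
      r ^ 2 / 4 := by
    have h6 := pair_count (fun i : Fin r => i.val < r / 2)
    have h5 : (Finset.univ.filter (fun i : Fin r => i.val < r / 2)).card = r / 2 := by
      rw [Fin.card_filter_val_lt]
      omega
    have h5' : (@Finset.filter (Fin r) (fun i : Fin r => i.val < r / 2)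
        (fun a => Classical.propDecidable _) Finset.univ).card = r / 2 := by
      rw [← h5]
      congr!
    rw [h5'] at h6
    refine (Eq.trans ?_ h6).trans ?_
    · congr!
    rcases Nat.even_or_odd' r with ⟨m, rfl | rfl⟩
    · have e1 : 2 * m / 2 = m := by omega
      have e2 : (2 * m) ^ 2 / 4 = m ^ 2 := by
        rw [show (2 * m) ^ 2 = 4 * m ^ 2 by ring]; omega
      rw [e1, e2, show 2 * m - m = m by omega]; ring
    · have e1 : (2 * m + 1) / 2 = m := by omega
      have e2 : (2 * m + 1) ^ 2 / 4 = m ^ 2 + m := by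
        rw [show (2 * m + 1) ^ 2 = 4 * (m ^ 2 + m) + 1 by ring]; omega
      rw [e1, e2, show 2 * m + 1 - m = m + 1 by omega]; ring
  have h5 : ∑ i : Fin r, ∑ j : Fin r, (if (j.val < r / 2) ∧ ¬ (i.val < r / 2) then 1 else 0) =
      r ^ 2 / 4 := by
    rw [Finset.sum_comm]
    exact h4
  rw [h3, h4, h5, h1] at h2
  omega

end Upper

/-- For every `r ≥ 3` the largest admissible constant equals `8 / (5 r² - 4 r)` for even `r` and
`8 / (5 r² - 4 r - 1)` for odd `r`. -/
theorem result (r : ℕ) (hr : 3 ≤ r) :
    IsGreatest {c : ℝ | Admissible r c}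
      (if Even r then 8 / (5 * (r : ℝ) ^ 2 - 4 * r) else 8 / (5 * (r : ℝ) ^ 2 - 4 * r - 1)) := by
  have hr' : (3 : ℝ) ≤ r := by exact_mod_cast hr
  -- the value is `2 / (⌊r²/4⌋ + r (r - 1))`
  have hval : (if Even r then 8 / (5 * (r : ℝ) ^ 2 - 4 * r) else 8 / (5 * (r : ℝ) ^ 2 - 4 * r - 1)) =
      2 / ((r ^ 2 / 4 + r * (r - 1) : ℕ) : ℝ) := by
    have hsub : ((r - 1 : ℕ) : ℝ) = (r : ℝ) - 1 := by
      rw [Nat.cast_sub (by omega)]; simp
    rcases Nat.even_or_odd r with he | ho
    · rw [if_pos he]
      obtain ⟨m, hm⟩ := he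
      have h1 : r ^ 2 / 4 = m ^ 2 := by
        rw [show r ^ 2 = 4 * m ^ 2 by rw [hm]; ring]; omega
      have hm' : (r : ℝ) = 2 * m := by rw [hm]; push_cast; ring
      rw [h1]
      push_cast
      rw [hsub, hm']
      have hm0 : (0 : ℝ) < m := by linarith
      have hm1 : (1 : ℝ) < m := by linarith
      have e1 : 5 * (2 * (m : ℝ)) ^ 2 - 4 * (2 * m) = 4 * ((m : ℝ) ^ 2 + 2 * m * (2 * m - 1)) := by
        ring
      have hpos : (0 : ℝ) < (m : ℝ) ^ 2 + 2 * m * (2 * m - 1) := by nlinarith
      rw [e1, div_eq_div_iff (by positivity) (by positivity)]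
      ring
    · rw [if_neg (Nat.not_even_iff_odd.mpr ho)]
      obtain ⟨m, hm⟩ := ho
      have h1 : r ^ 2 / 4 = m ^ 2 + m := by
        rw [show r ^ 2 = 4 * (m ^ 2 + m) + 1 by rw [hm]; ring]; omega
      have hm' : (r : ℝ) = 2 * m + 1 := by rw [hm]; push_cast; ring
      rw [h1]
      push_cast
      rw [hsub, hm']
      have hm0 : (0 : ℝ) < m := by linarith
      have e1 : 5 * (2 * (m : ℝ) + 1) ^ 2 - 4 * (2 * m + 1) - 1 =
          4 * ((m : ℝ) ^ 2 + m + (2 * m + 1) * (2 * m + 1 - 1)) := by
        ring
      have hpos : (0 : ℝ) < (m : ℝ) ^ 2 + m + (2 * m + 1) * (2 * m + 1 - 1) := by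
        have : (2 * (m : ℝ) + 1) * (2 * m + 1 - 1) = 4 * (m : ℝ) ^ 2 + 2 * m := by ring
        rw [this]; positivity
      rw [e1, div_eq_div_iff (by positivity) (by positivity)]
      ring
  rw [hval]
  have hKpos : (0 : ℝ) < ((r ^ 2 / 4 + r * (r - 1) : ℕ) : ℝ) := by
    have : 0 < r * (r - 1) := Nat.mul_pos (by omega) (by omega)
    exact_mod_cast Nat.lt_of_lt_of_le this (Nat.le_add_left _ _)
  constructor
  · -- the value is admissible
    intro V _ G hG hcard x
    have hne : {k : ℕ | ∃ S : Finset V, IsTotalDominating G S ∧ S.card = k}.Nonempty := by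
      refine ⟨_, Finset.univ, ?_, rfl⟩
      intro v
      have : Nontrivial V := Fintype.one_lt_card_iff_nontrivial.mp (by omega)
      obtain ⟨u, hu⟩ := hG.preconnected.exists_adj_of_nontrivial v
      exact ⟨u, Finset.mem_univ _, hu⟩
    obtain ⟨S, hS, hc⟩ := Nat.sInf_mem hne
    have hb := main_bound hG hS hr x
    have hc' : totalDomNum G = S.card := hc.symm
    rw [hc', div_mul_eq_mul_div, div_le_iff₀ hKpos]
    exact_mod_cast hb
  · -- optimality
    intro c hc
    have h1 := hc (Bool ⊕ Fin r) (ds r) (ds_connected r) (by simp) (fun i => Sum.inr i)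
    have h2 : totalDomNum (ds r) ≤ 2 := by
      have htd : IsTotalDominating (ds r) {Sum.inl true, Sum.inl false} := by
        intro v
        rcases v with (_ | _) | i
        · refine ⟨Sum.inl true, by simp, ?_⟩
          change false ≠ true
          decide
        · refine ⟨Sum.inl false, by simp, ?_⟩
          change true ≠ false
          decide
        · refine ⟨Sum.inl (decide (i.val < r / 2)), ?_, ?_⟩
          · cases h : decide (i.val < r / 2) <;> simp
          · change decide (i.val < r / 2) = decide (i.val < r / 2)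
            rfl
      have : totalDomNum (ds r) ≤ ({Sum.inl true, Sum.inl false} : Finset (Bool ⊕ Fin r)).card :=
        Nat.sInf_le ⟨_, htd, rfl⟩
      exact this.trans Finset.card_le_two
    have h3 := ds_distSum r
    have h2' : (totalDomNum (ds r) : ℝ) ≤ 2 := by exact_mod_cast h2
    have h3' : ((r ^ 2 / 4 + r * (r - 1) : ℕ) : ℝ) ≤
        (distSum (ds r) (fun i : Fin r => (Sum.inr i : Bool ⊕ Fin r)) : ℝ) := by
      exact_mod_cast h3
    rw [le_div_iff₀ hKpos]
    rcases le_or_gt c 0 with hc0 | hc0
    · nlinarith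
    · calc c * ((r ^ 2 / 4 + r * (r - 1) : ℕ) : ℝ) ≤
          c * (distSum (ds r) (fun i : Fin r => (Sum.inr i : Bool ⊕ Fin r)) : ℝ) :=
            mul_le_mul_of_nonneg_left h3' hc0.le
        _ ≤ 2 := h1.trans h2'

end Pool.Agent.Results.MP_95a65f_co.TotalDomDist
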